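import Pool.Agent.W533.K.Defs

/-!
Project UK, parts `Coord` and `SepL2`.
-/

set_option autoImplicit false

namespace Pool.Agent.W585.UK

open Pool.Agent.W533.K TopologicalSpace

universe u v

lemma exists_coords {T : Type*} [Finite T] {H : Type*} [NormedAddCommGroup H]
    [InnerProductSpace ℝ H] (f : T → H) :
    ∃ (n : ℕ) (g : T → E n), ∀ x y, ‖g x - g y‖ = ‖f x - f y‖ := by
  classical
  set V : Submodule ℝ H := Submodule.span ℝ (Set.range f) with hV
  have : FiniteDimensional ℝ V := FiniteDimensional.span_of_finite ℝ (Set.finite_range f)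
  have hmem : ∀ x, f x ∈ V := fun x => Submodule.subset_span ⟨x, rfl⟩
  set b := stdOrthonormalBasis ℝ V with hb
  refine ⟨_, fun x => b.repr ⟨f x, hmem x⟩, fun x y => ?_⟩
  rw [← map_sub, LinearIsometryEquiv.norm_map]
  rfl

theorem coord : Coord.{u, v} := by
  intro X _ A D s H _ _ f hs hf T
  classical
  have hfin : Finite {x : X // x ∈ A ∩ (T : Set X)} :=
    ((T.finite_toSet).subset Set.inter_subset_right).to_subtype
  obtain ⟨n, g, hg⟩ := exists_coords (T := {x : X // x ∈ A ∩ (T : Set X)})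
    (fun x => f ⟨x.1, x.2.1⟩)
  refine ⟨n, fun x => if h : x ∈ A ∩ (T : Set X) then (1 / s) • g ⟨x, h⟩ else 0, ?_⟩
  intro x hx y hy
  simp only [dif_pos hx, dif_pos hy]
  rw [← smul_sub, norm_smul, hg, Real.norm_eq_abs, abs_of_pos (by positivity)]
  have h1 := hf ⟨x, hx.1⟩ ⟨y, hy.1⟩
  have h2 : dist (⟨x, hx.1⟩ : A) ⟨y, hy.1⟩ = dist x y := rfl
  rw [h2] at h1
  constructor
  · rw [one_div, ← div_eq_inv_mul, le_div_iff₀ hs]
    linarith [h1.1]
  · rw [one_div, ← div_eq_inv_mul, div_le_iff₀ hs]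
    linarith [h1.2]

lemma countable_index {V : Type*} [NormedAddCommGroup V] [InnerProductSpace ℝ V]
    [SeparableSpace V] {ι : Type*} (b : ι → V) (hb : Orthonormal ℝ b) : Countable ι := by
  rw [← Set.countable_univ_iff]
  refine Set.PairwiseDisjoint.countable_of_isOpen (s := fun i => Metric.ball (b i) (1 / 2)) ?_
    (fun i _ => Metric.isOpen_ball) (fun i _ => ⟨b i, Metric.mem_ball_self (by norm_num)⟩)
  intro i _ j _ hij
  refine Metric.ball_disjoint_ball ?_
  have h1 : ‖b i - b j‖ ^ 2 = 2 := by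
    rw [@norm_sub_sq ℝ, hb.1 i, hb.1 j, hb.2 hij]
    norm_num
  rw [dist_eq_norm]
  nlinarith [norm_nonneg (b i - b j)]

theorem sepL2 : SepL2.{u, v} := by
  intro X _ H _ _ _ Φ hX hΦ
  classical
  set S : Submodule ℝ H := Submodule.span ℝ (Set.range Φ) with hS
  set V : Submodule ℝ H := S.topologicalClosure with hV
  have hmem : ∀ x, Φ x ∈ V := fun x =>
    S.le_topologicalClosure (Submodule.subset_span ⟨x, rfl⟩)
  have hcl : IsClosed (V : Set H) := S.isClosed_topologicalClosure
  have hcomp : CompleteSpace V := hcl.completeSpace_coe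
  have hsep : IsSeparable (V : Set H) := by
    have h1 : IsSeparable (Set.range Φ) := isSeparable_range hΦ
    have h2 : IsSeparable (S : Set H) := h1.span
    exact h2.closure
  have hsepV : SeparableSpace V := hsep.separableSpace
  obtain ⟨w, b, -⟩ := exists_hilbertBasis ℝ V
  have hcount : Countable w := countable_index b b.orthonormal
  obtain ⟨e, he⟩ := exists_injective_nat w
  have ho : Orthonormal ℝ ((default : HilbertBasis ℕ ℝ (lp (fun _ : ℕ => ℝ) 2)) ∘ e) :=
    (default : HilbertBasis ℕ ℝ (lp (fun _ : ℕ => ℝ) 2)).orthonormal.comp e he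
  let L := ho.orthogonalFamily.linearIsometry
  refine ⟨fun x => L (b.repr ⟨Φ x, hmem x⟩), fun x y => ?_⟩
  rw [← map_sub, ← map_sub, LinearIsometry.norm_map, LinearIsometryEquiv.norm_map]
  rfl

end Pool.Agent.W585.UK

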